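import Pool.Agent.W163.P3.Real

/-! P3-RA4 -/

set_option autoImplicit false

namespace Pool.Agent.W591.P3

open Pool.Agent.W163.P3

theorem linqq (y1 y2 y3 p1 p2 p3 d12 d13 d21 d23 d31 d32 : ℝ) :
    LIN y1 y2 y3 p1 p2 p3 d12 d13 d21 d23 d31 d32 + QQ d12 d13 d21 d23 d31 d32 ≤
      2 * (p1 * (d21 + d31) + p2 * (d12 + d32) + p3 * (d13 + d23))
      - 2 * ((d21 + d31) * y1 + (d12 + d32) * y2 + (d13 + d23) * y3)
      + (d12 + d13 + d21 + d23 + d31 + d32) ^ 2 / 3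
      + ((y3 - y2) ^ 2 + (y3 - y1) ^ 2 + (y2 - y1) ^ 2) := by
  unfold LIN QQ
  have h1 := sq_nonneg ((d21 - d31) + (y3 - y2))
  have h2 := sq_nonneg ((d12 - d32) + (y3 - y1))
  have h3 := sq_nonneg ((d13 - d23) + (y2 - y1))
  have h4 := sq_nonneg (((d12 + d32) - (d21 + d31)) + 2 * ((d13 - d23) - (d21 - d31)) +
    ((d12 - d32) + (d21 - d31)))
  have h5 := sq_nonneg (((d13 + d23) - (d21 + d31)) + ((d13 - d23) - (d21 - d31)) +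
    2 * ((d12 - d32) + (d21 - d31)))
  have h6 := sq_nonneg ((((d13 + d23) - (d21 + d31)) + ((d13 - d23) - (d21 - d31)) +
    2 * ((d12 - d32) + (d21 - d31))) - (((d12 + d32) - (d21 + d31)) +
    2 * ((d13 - d23) - (d21 - d31)) + ((d12 - d32) + (d21 - d31))))
  nlinarith [h1, h2, h3, h4, h5, h6]

theorem aux3 (z : ℝ) (h1 : z ≤ 0) (h2 : -(545 / 1000) ≤ z) : z ^ 2 ≤ 298 / 1000 := by nlinarith

theorem aux4 (t0 z : ℝ) (h : z ^ 2 ≤ 298 / 1000) : t0 * z ≤ 30 * t0 ^ 2 + 298 / 120000 := by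
  nlinarith [sq_nonneg (60 * t0 - z)]

theorem aux5 (t : ℝ) (h : t ^ 2 ≤ 1 / 10000) : t ≤ 1 / 100 := by
  by_contra hc
  push Not at hc
  nlinarith

theorem aux6 (y D : ℝ) (h : 1 - 146 / 100000 ≤ y) (hD : 0 ≤ D) :
    - (y / 2 * D) ≤ - D / 2 + 73 / 100000 * D := by nlinarith

theorem auxfin (x D : ℝ) (hx0 : 0 ≤ x) (Dn : 0 ≤ D) (hD : D ≤ 3 / 100)
    (fin : 0 ≤ 1 / 10 ^ 6 + 292 / 100000 + 298 / 120000 + (13 / 32 - 2 / 5) -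
      3 / 2 * (235 / 1000 - D + x) ^ 2 +
      (235 / 1000 - D + x) / 4 + 2 * (235 / 1000 - D + x) * D - D / 2 + 73 / 100000 * D +
      D ^ 2 / 3 + D ^ 2 / 2) : False := by
  nlinarith [mul_nonneg hx0 Dn, mul_nonneg Dn (sub_nonneg.2 hD), mul_nonneg hx0 (sub_nonneg.2 hD),
    sq_nonneg x]

theorem aux1 (e1 e2 e3 t1 t2 t3 : ℝ) (e1n : 0 ≤ e1) (e2n : 0 ≤ e2) (e3n : 0 ≤ e3) :
    -2 * (e1 * t1 + e2 * t2 + e3 * t3) ≤ 2 * (t1 ^ 2 + t2 ^ 2 + t3 ^ 2) +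
      (e1 + e2 + e3) ^ 2 / 2 := by
  have h1 := sq_nonneg (2 * t1 + e1)
  have h2 := sq_nonneg (2 * t2 + e2)
  have h3 := sq_nonneg (2 * t3 + e3)
  have h4 := mul_nonneg e1n e2n
  have h5 := mul_nonneg e1n e3n
  have h6 := mul_nonneg e2n e3n
  linarith

theorem aux2 (t0 t2 t3 : ℝ) :
    t0 ^ 2 ≤ 3 * ((- t0 - t2 - t3) ^ 2 + t2 ^ 2 + t3 ^ 2) := by
  have h1 := sq_nonneg (t2 - t3)
  have h2 := sq_nonneg (- t0 - t2 - t3 - t2)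
  have h3 := sq_nonneg (- t0 - t2 - t3 - t3)
  linarith

theorem core {y0 y1 y2 y3 p1 p2 p3 d12 d13 d21 d23 d31 d32 f th e : ℝ}
    (H : RHyp y0 y1 y2 y3 p1 p2 p3 d12 d13 d21 d23 d31 d32 f th e)
    (hD : d12 + d13 + d21 + d23 + d31 + d32 ≤ 3 / 100) (q : ℝ) (hq1 : p1 ≤ q) (hq2 : p2 ≤ q)
    (hq3 : p3 ≤ q) (hqy : q ≤ y0)
    (hw : q ^ 2 + (y0 - q) ^ 2 / 2 ≤ p1 ^ 2 + p2 ^ 2 + p3 ^ 2) :
    q + (d12 + d13 + d21 + d23 + d31 + d32) ≤ 235 / 1000 := by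
  obtain ⟨hy0, hy1, hy2, hy3, hp1, hp2, hp3, h12, h13, h21, h23, h31, h32, hf, hth, he, he', hsum,
    hp, hd1, hd2, hd3, hC, hm1, hm2, hm3, hS, hIa, hIb⟩ := H
  by_contra hcon
  push Not at hcon
  have hL := linqq y1 y2 y3 p1 p2 p3 d12 d13 d21 d23 d31 d32
  obtain ⟨e1, he1⟩ : ∃ e1, e1 = d21 + d31 := ⟨_, rfl⟩
  obtain ⟨e2, he2⟩ : ∃ e2, e2 = d12 + d32 := ⟨_, rfl⟩
  obtain ⟨e3, he3⟩ : ∃ e3, e3 = d13 + d23 := ⟨_, rfl⟩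
  obtain ⟨D, hDD⟩ : ∃ D, D = d12 + d13 + d21 + d23 + d31 + d32 := ⟨_, rfl⟩
  have hDe : D = e1 + e2 + e3 := by rw [hDD, he1, he2, he3]; ring
  have e1n : 0 ≤ e1 := by rw [he1]; positivity
  have e2n : 0 ≤ e2 := by rw [he2]; positivity
  have e3n : 0 ≤ e3 := by rw [he3]; positivity
  rw [← he1, ← he2, ← he3, ← hDD] at hL
  rw [← hDD] at hD hcon
  obtain ⟨LQ, hLQ⟩ : ∃ z, z = LIN y1 y2 y3 p1 p2 p3 d12 d13 d21 d23 d31 d32 +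
    QQ d12 d13 d21 d23 d31 d32 := ⟨_, rfl⟩
  have hIa' : 0 ≤ e + 2 * f + 2 * th +
    (y0 ^ 2 + 2 * (y1 * y2 + y1 * y3 + y2 * y3) - 2 / 5 - (p1 ^ 2 + p2 ^ 2 + p3 ^ 2)) + LQ := by
    rw [hLQ]; linarith
  rw [← hLQ] at hL
  clear hIa hIb hS hm1 hm2 hm3 hd1 hd2 hd3 hLQ
  clear he1 he2 he3 hDD h12 h13 h21 h23 h31 h32
  -- the new variables
  obtain ⟨y, hy⟩ : ∃ y, y = 1 - th := ⟨_, rfl⟩
  obtain ⟨t0, ht0⟩ : ∃ t, t = y0 - y / 4 := ⟨_, rfl⟩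
  obtain ⟨t1, ht1⟩ : ∃ t, t = y1 - y / 4 := ⟨_, rfl⟩
  obtain ⟨t2, ht2⟩ : ∃ t, t = y2 - y / 4 := ⟨_, rfl⟩
  obtain ⟨t3, ht3⟩ : ∃ t, t = y3 - y / 4 := ⟨_, rfl⟩
  have hy0' : y0 = y / 4 + t0 := by linarith
  have hy1' : y1 = y / 4 + t1 := by linarith
  have hy2' : y2 = y / 4 + t2 := by linarith
  have hy3' : y3 = y / 4 + t3 := by linarith
  have ht : t1 = - t0 - t2 - t3 := by linarith
  have hth' : th = 1 - y := by linarith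
  have hC' : 2 * f + 2 * th + 24 * (t0 ^ 2 + t1 ^ 2 + t2 ^ 2 + t3 ^ 2) ≤ 292 / 100000 := by
    rw [hy0', hy1', hy2', hy3'] at hC
    have : 1 - th = y := by linarith
    rw [this] at hC
    have k : 6 * (4 * ((y / 4 + t0) ^ 2 + (y / 4 + t1) ^ 2 + (y / 4 + t2) ^ 2 + (y / 4 + t3) ^ 2)
        - y ^ 2) = 24 * (t0 ^ 2 + t1 ^ 2 + t2 ^ 2 + t3 ^ 2) := by rw [ht]; ring
    linarith
  have hpe : p1 * e1 + p2 * e2 + p3 * e3 ≤ q * D := by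
    rw [hDe]
    have m1 := mul_le_mul_of_nonneg_right hq1 e1n
    have m2 := mul_le_mul_of_nonneg_right hq2 e2n
    have m3 := mul_le_mul_of_nonneg_right hq3 e3n
    linarith
  have hthb : th ≤ 146 / 100000 := by
    linarith [sq_nonneg t0, sq_nonneg t1, sq_nonneg t2, sq_nonneg t3]
  -- the star inequality
  have star : 0 ≤ 1 / 10 ^ 6 + 292 / 100000 - 22 * (t0 ^ 2 + t1 ^ 2 + t2 ^ 2 + t3 ^ 2) -
      3 / 2 * t0 ^ 2 + 13 / 32 * y ^ 2 - 2 / 5 - 3 / 2 * q ^ 2 + q * y / 4 +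
      t0 * (q - 3 * y / 4) + 2 * q * D - y / 2 * D - 2 * (e1 * t1 + e2 * t2 + e3 * t3) +
      D ^ 2 / 3 := by
    have k1 : (y3 - y2) ^ 2 + (y3 - y1) ^ 2 + (y2 - y1) ^ 2 =
        3 * (t0 ^ 2 + t1 ^ 2 + t2 ^ 2 + t3 ^ 2) - 4 * t0 ^ 2 := by
      rw [hy1', hy2', hy3', ht]; ring
    have k2 : y0 ^ 2 + 2 * (y1 * y2 + y1 * y3 + y2 * y3) =
        7 / 16 * y ^ 2 - y * t0 / 2 + 3 * t0 ^ 2 - (t0 ^ 2 + t1 ^ 2 + t2 ^ 2 + t3 ^ 2) := by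
      rw [hy0', hy1', hy2', hy3', ht]; ring
    have k3 : q ^ 2 + (y0 - q) ^ 2 / 2 = 3 / 2 * q ^ 2 - q * (y / 4 + t0) +
        (y / 4 + t0) ^ 2 / 2 := by
      rw [hy0']; ring
    have k4 : e1 * y1 + e2 * y2 + e3 * y3 = y / 4 * D + (e1 * t1 + e2 * t2 + e3 * t3) := by
      rw [hy1', hy2', hy3', hDe]; ring
    rw [k1, k4] at hL
    rw [k2] at hIa'
    rw [k3] at hw
    linarith [hL, hIa', hw, hC', hpe, he']
  -- the bounds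
  have b1 := aux1 e1 e2 e3 t1 t2 t3 e1n e2n e3n
  rw [← hDe] at b1
  have b2 := aux2 t0 t2 t3
  rw [← ht] at b2
  have Dn : 0 ≤ D := by rw [hDe]; positivity
  have ht0b : t0 ^ 2 ≤ 1 / 10000 := by
    linarith [sq_nonneg t0, sq_nonneg t1, sq_nonneg t2, sq_nonneg t3]
  have ht0b' : t0 ≤ 1 / 100 := aux5 t0 ht0b
  have hy1 : y ≤ 1 := by linarith
  have hyn : 0 ≤ y := by linarith
  have hqn : 0 ≤ q := by linarith
  have b3 : (q - 3 * y / 4) ^ 2 ≤ 298 / 1000 := aux3 _ (by linarith) (by linarith)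
  have b4 := aux4 t0 (q - 3 * y / 4) b3
  have c1 : y ^ 2 ≤ 1 := pow_le_one₀ hyn hy1
  have c2 : q * y ≤ q := mul_le_of_le_one_right hqn hy1
  have c3 := aux6 y D (by linarith) Dn
  have fin : 0 ≤ 1 / 10 ^ 6 + 292 / 100000 + 298 / 120000 + (13 / 32 - 2 / 5) - 3 / 2 * q ^ 2 +
      q / 4 + 2 * q * D - D / 2 + 73 / 100000 * D + D ^ 2 / 3 + D ^ 2 / 2 := by
    have n0 := sq_nonneg t0
    linarith only [star, b1, b2, b4, c1, c2, c3, n0]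
  obtain ⟨x, hx⟩ : ∃ x, x = q - (235 / 1000 - D) := ⟨_, rfl⟩
  have hq : q = 235 / 1000 - D + x := by linarith
  have hx0 : 0 ≤ x := by linarith
  rw [hq] at fin
  exact auxfin x D hx0 Dn hD fin

theorem t_RA4 : S_RA4 := by
  intro y0 y1 y2 y3 p1 p2 p3 d12 d13 d21 d23 d31 d32 f th e H hD
  have hp1 := H.hp1
  have hp2 := H.hp2
  have hp3 := H.hp3
  have hp := H.hp
  have key : ∃ q, p1 ≤ q ∧ p2 ≤ q ∧ p3 ≤ q ∧ q ≤ y0 ∧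
      q ^ 2 + (y0 - q) ^ 2 / 2 ≤ p1 ^ 2 + p2 ^ 2 + p3 ^ 2 := by
    have hy : y0 = p1 + p2 + p3 := hp.symm
    rcases le_total p1 p2 with h12 | h12
    · rcases le_total p2 p3 with h23 | h23
      · refine ⟨p3, by linarith, h23, le_rfl, by linarith, ?_⟩
        rw [hy]; nlinarith [sq_nonneg (p1 - p2)]
      · refine ⟨p2, h12, le_rfl, h23, by linarith, ?_⟩
        rw [hy]; nlinarith [sq_nonneg (p1 - p3)]
    · rcases le_total p1 p3 with h13 | h13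
      · refine ⟨p3, h13, by linarith, le_rfl, by linarith, ?_⟩
        rw [hy]; nlinarith [sq_nonneg (p1 - p2)]
      · refine ⟨p1, le_rfl, h12, h13, by linarith, ?_⟩
        rw [hy]; nlinarith [sq_nonneg (p2 - p3)]
  obtain ⟨q, h1, h2, h3, h4, h5⟩ := key
  have := core H hD q h1 h2 h3 h4 h5
  refine ⟨by linarith, by linarith, by linarith⟩

end Pool.Agent.W591.P3
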